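import Pool.Agent.W744.NG.Stubs

/-!
Correlations of the limit automorphism.
-/

set_option autoImplicit false

namespace Pool.Agent.W337.NG

open MeasureTheory Set Filter Topology
open Pool.Agent.W744.NG

theorem sum_fib {V V' : Type} [Fintype V] [Fintype V'] (p : V' → V)
    (h : ∀ i, Nat.card {x : V' // p x = i} * Fintype.card V = Fintype.card V') (g : V → ℂ)
    (hg : ∑ i, g i = 0) : ∑ x, g (p x) = 0 := by
  classical
  have h1 : (∑ x, g (p x)) = ∑ i, (Nat.card {x : V' // p x = i} : ℂ) * g i := by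
    rw [← Finset.sum_fiberwise (s := Finset.univ) (g := p)]
    apply Finset.sum_congr rfl
    intro i _
    rw [Finset.sum_congr rfl (g := fun _ => g i)]
    · rw [Finset.sum_const, Nat.card_eq_fintype_card, Fintype.card_subtype, nsmul_eq_mul]
    · intro x hx
      rw [(Finset.mem_filter.1 hx).2]
  by_cases hV : Fintype.card V = 0
  · have hV1 : IsEmpty V := Fintype.card_eq_zero_iff.1 hV
    have hV2 : IsEmpty V' := Function.isEmpty p
    simp
  · have hV' : (Fintype.card V : ℂ) ≠ 0 := by exact_mod_cast hV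
    apply mul_right_cancel₀ hV'
    rw [h1, Finset.sum_mul, zero_mul]
    have h2 : ∑ i, (Nat.card {x : V' // p x = i} : ℂ) * g i * (Fintype.card V : ℂ) =
        ∑ i, (Fintype.card V' : ℂ) * g i := by
      apply Finset.sum_congr rfl
      intro i _
      rw [← h i]
      push_cast
      ring
    rw [h2, ← Finset.mul_sum, hg, mul_zero]

theorem cor_bound {V : Type} [Fintype V] (σ : Equiv.Perm V) (f f' : V → ℂ) (C C' : ℝ)
    (hC : 0 ≤ C) (hC' : 0 ≤ C')
    (hf : ∀ x, ‖f x‖ ≤ C) (hf' : ∀ x, ‖f' x‖ ≤ C') (n : ℕ) : ‖cor σ f f' n‖ ≤ C * C' := by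
  unfold cor
  rw [norm_div]
  by_cases hV : Fintype.card V = 0
  · rw [hV]
    simp
    positivity
  · have hV' : (0 : ℝ) < ‖(Fintype.card V : ℂ)‖ := by
      rw [Complex.norm_natCast]
      exact_mod_cast Nat.pos_of_ne_zero hV
    rw [div_le_iff₀ hV']
    calc ‖∑ x, f ((σ ^ n) x) * starRingEnd ℂ (f' x)‖
        ≤ ∑ x, ‖f ((σ ^ n) x) * starRingEnd ℂ (f' x)‖ := norm_sum_le _ _
      _ ≤ ∑ _x : V, C * C' := by
          apply Finset.sum_le_sum
          intro x _
          rw [norm_mul, RCLike.norm_conj]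
          exact mul_le_mul (hf _) (hf' _) (norm_nonneg _) hC
      _ = C * C' * ‖(Fintype.card V : ℂ)‖ := by
          rw [Finset.sum_const, Finset.card_univ, nsmul_eq_mul, Complex.norm_natCast]
          ring

theorem cor_conj {V : Type} [Fintype V] (σ : Equiv.Perm V) (f : V → ℂ) (H n : ℕ) (hH : σ ^ H = 1)
    (hn : n ≤ H) : cor σ f f n = starRingEnd ℂ (cor σ f f (H - n)) := by
  unfold cor
  rw [map_div₀, map_sum, Complex.conj_natCast]
  congr 1
  rw [← Equiv.sum_comp (σ ^ n) (fun x => starRingEnd ℂ (f ((σ ^ (H - n)) x) * starRingEnd ℂ (f x)))]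
  apply Finset.sum_congr rfl
  intro x _
  have h1 : (σ ^ (H - n)) ((σ ^ n) x) = x := by
    rw [← Equiv.Perm.mul_apply, ← pow_add, Nat.sub_add_cancel hn, hH, Equiv.Perm.one_apply]
  rw [map_mul, h1, Complex.conj_conj]
  ring

section
variable {X : Type} [MeasurableSpace X] {μ : Measure X} {T : X → X}

/-- lift of a function on level `j` to level `j + i` -/
noncomputable def lift (W : Tow μ T) (j : ℕ) (f : Fin (W.K j) → ℂ) :
    ∀ i, Fin (W.K (j + i)) → ℂ
  | 0 => f
  | i + 1 => fun x => lift W j f i (W.p (j + i) x)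

theorem lift_P (W : Tow μ T) (j : ℕ) (f : Fin (W.K j) → ℂ) (i : ℕ) (x : X) :
    lift W j f i (W.P (j + i) x) = f (W.P j x) := by
  induction i with
  | zero => rfl
  | succ i ih =>
    show lift W j f i (W.p (j + i) (W.P (j + i + 1) x)) = _
    rw [W.ref, ih]

theorem lift_sum (W : Tow μ T) (j : ℕ) (f : Fin (W.K j) → ℂ) (hf : ∑ x, f x = 0) (i : ℕ) :
    ∑ x, lift W j f i x = 0 := by
  induction i with
  | zero => exact hf
  | succ i ih => exact sum_fib (W.p (j + i)) (W.nxt (j + i)).fib (lift W j f i) ih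

theorem lift_bound (W : Tow μ T) (j : ℕ) (f : Fin (W.K j) → ℂ) (C : ℝ) (hf : ∀ x, ‖f x‖ ≤ C)
    (i : ℕ) : ∀ x, ‖lift W j f i x‖ ≤ C := by
  induction i with
  | zero => exact hf
  | succ i ih => exact fun x => ih _

theorem H_pos (W : Tow μ T) (j : ℕ) : 1 ≤ W.H j := by
  induction j with
  | zero => rw [W.H0]
  | succ j ih =>
    refine le_trans ?_ (W.grow j)
    have : 0 < 2 ^ (j + 2) * W.H j ^ 2 := by positivity
    omega

theorem H_double (W : Tow μ T) (j : ℕ) : 2 * W.H j ≤ W.H (j + 1) := by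
  refine le_trans ?_ (W.grow j)
  have h1 := H_pos W j
  have h2 : 2 ^ 1 ≤ 2 ^ (j + 2) := Nat.pow_le_pow_right (by norm_num) (by omega)
  nlinarith [Nat.mul_le_mul h2 (Nat.mul_le_mul h1 (le_refl (W.H j)))]

theorem H_mono (W : Tow μ T) : Monotone W.H := by
  apply monotone_nat_of_le_succ
  intro n
  have := H_double W n
  omega

theorem H_gt (W : Tow μ T) (j : ℕ) : j < W.H j := by
  induction j with
  | zero => exact H_pos W 0
  | succ j ih =>
    have := H_double W j
    omega

/-- the correlations at level `j + i` -/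
noncomputable def cc (W : Tow μ T) (j : ℕ) (f f' : Fin (W.K j) → ℂ) (i n : ℕ) : ℂ :=
  cor (W.σ (j + i)) (lift W j f i) (lift W j f' i) n

theorem cc_succ (W : Tow μ T) (j : ℕ) (f f' : Fin (W.K j) → ℂ) (hf : ∑ x, f x = 0)
    (hf' : ∑ x, f' x = 0) (i n : ℕ) (hn : n + W.H (j + i) ≤ W.H (j + i + 1)) :
    cc W j f f' (i + 1) n =
      (if n ≤ W.H (j + i) then 1 - (n : ℂ) / W.H (j + i) else 0) * cc W j f f' i n :=
  (W.nxt (j + i)).corr (lift W j f i) (lift W j f' i) (lift_sum W j f hf i)
    (lift_sum W j f' hf' i) n hn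

theorem fac_norm (n H : ℕ) :
    ‖(if n ≤ H then 1 - (n : ℂ) / H else 0)‖ = if n ≤ H then 1 - (n : ℝ) / H else 0 := by
  split_ifs with h
  · have h1 : (1 - (n : ℂ) / H) = ((1 - (n : ℝ) / H : ℝ) : ℂ) := by push_cast; rfl
    rw [h1, Complex.norm_real, Real.norm_eq_abs, abs_of_nonneg]
    rcases Nat.eq_zero_or_pos H with h2 | h2
    · subst h2
      simp
    · rw [sub_nonneg, div_le_one (by exact_mod_cast h2)]
      exact_mod_cast h
  · simp

theorem fac_le (n H : ℕ) : (if n ≤ H then 1 - (n : ℝ) / H else 0) ≤ 1 := by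
  split_ifs with h
  · have : (0 : ℝ) ≤ (n : ℝ) / H := by positivity
    linarith
  · norm_num

theorem cc_anti (W : Tow μ T) (j : ℕ) (f f' : Fin (W.K j) → ℂ) (hf : ∑ x, f x = 0)
    (hf' : ∑ x, f' x = 0) (n i0 : ℕ) (hn : n ≤ W.H (j + i0)) (k : ℕ) :
    ‖cc W j f f' (i0 + k) n‖ ≤ ‖cc W j f f' i0 n‖ := by
  induction k with
  | zero => exact le_refl _
  | succ k ih =>
    have h1 := H_double W (j + (i0 + k))
    have h2 : W.H (j + i0) ≤ W.H (j + (i0 + k)) := H_mono W (by omega)
    have h3 := cc_succ W j f f' hf hf' (i0 + k) n (by omega)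
    have h4 : ‖cc W j f f' (i0 + (k + 1)) n‖ ≤ ‖cc W j f f' (i0 + k) n‖ := by
      show ‖cc W j f f' (i0 + k + 1) n‖ ≤ _
      rw [h3, norm_mul, fac_norm]
      exact mul_le_of_le_one_left (norm_nonneg _) (fac_le _ _)
    exact le_trans h4 ih

theorem int_P (W : Tow μ T) (J : ℕ) (hP : Measurable (W.P J)) [IsProbabilityMeasure μ]
    (g : Fin (W.K J) → ℂ) :
    ∫ x, g (W.P J x) ∂μ = (∑ v, g v) / (Fintype.card (Fin (W.K J)) : ℂ) := by
  have h1 : ∫ x, g (W.P J x) ∂μ = ∫ v, g v ∂(μ.map (W.P J)) :=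
    (integral_map hP.aemeasurable (Measurable.of_discrete.aestronglyMeasurable)).symm
  have hpm : IsProbabilityMeasure (μ.map (W.P J)) := Measure.isProbabilityMeasure_map hP.aemeasurable
  rw [h1, integral_fintype .of_finite, Finset.sum_div]
  apply Finset.sum_congr rfl
  intro v _
  have h2 : (μ.map (W.P J)).real {v} = 1 / (W.K J : ℝ) := by
    rw [map_measureReal_apply hP (measurableSet_singleton v)]
    exact W.unif J v
  rw [h2, Fintype.card_fin, Complex.real_smul]
  push_cast
  ring

theorem bad_le (W : Tow μ T) (hT : MeasurePreserving T μ μ) [IsProbabilityMeasure μ] (J n : ℕ) :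
    μ.real {x | W.P J (T^[n] x) ≠ (W.σ J ^ n) (W.P J x)} ≤ n * (2 / W.H J) := by
  have hms : ∀ n, MeasurableSet {x | W.P J (T^[n] x) ≠ (W.σ J ^ n) (W.P J x)} := by
    intro n
    have h1 : Measurable (fun x => W.P J (T^[n] x)) := (W.meas J).comp (hT.measurable.iterate n)
    have h2 : Measurable (fun x => (W.σ J ^ n) (W.P J x)) :=
      Measurable.of_discrete.comp (W.meas J)
    exact (measurableSet_eq_fun h1 h2).compl
  induction n with
  | zero => simp
  | succ n ih =>
    have h1 : {x | W.P J (T^[n + 1] x) ≠ (W.σ J ^ (n + 1)) (W.P J x)} ⊆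
        (T ⁻¹' {x | W.P J (T^[n] x) ≠ (W.σ J ^ n) (W.P J x)}) ∪
          {x | W.P J (T x) ≠ W.σ J (W.P J x)} := by
      intro x hx
      by_contra hc
      simp only [mem_union, mem_preimage, mem_setOf_eq, not_or, not_not, ne_eq] at hc
      apply hx
      rw [Function.iterate_succ_apply, hc.1, hc.2, pow_succ, Equiv.Perm.mul_apply]
    have h2 : μ.real (T ⁻¹' {x | W.P J (T^[n] x) ≠ (W.σ J ^ n) (W.P J x)}) =
        μ.real {x | W.P J (T^[n] x) ≠ (W.σ J ^ n) (W.P J x)} := by
      rw [measureReal_def, measureReal_def, hT.measure_preimage (hms n).nullMeasurableSet]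
    calc μ.real {x | W.P J (T^[n + 1] x) ≠ (W.σ J ^ (n + 1)) (W.P J x)}
        ≤ μ.real ((T ⁻¹' {x | W.P J (T^[n] x) ≠ (W.σ J ^ n) (W.P J x)}) ∪
          {x | W.P J (T x) ≠ W.σ J (W.P J x)}) := measureReal_mono h1
      _ ≤ μ.real (T ⁻¹' {x | W.P J (T^[n] x) ≠ (W.σ J ^ n) (W.P J x)}) +
          μ.real {x | W.P J (T x) ≠ W.σ J (W.P J x)} := measureReal_union_le _ _
      _ ≤ n * (2 / W.H J) + 2 / W.H J := by
          rw [h2]
          exact add_le_add ih (W.close J)
      _ = ((n + 1 : ℕ) : ℝ) * (2 / W.H J) := by push_cast; ring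

/-- the correlations of the limit -/
noncomputable def gam (W : Tow μ T) (j : ℕ) (f f' : Fin (W.K j) → ℂ) (n : ℕ) : ℂ :=
  ∫ x, f (W.P j (T^[n] x)) * starRingEnd ℂ (f' (W.P j x)) ∂μ

theorem gam_close (W : Tow μ T) (hT : MeasurePreserving T μ μ) [IsProbabilityMeasure μ]
    (j : ℕ) (f f' : Fin (W.K j) → ℂ) (C C' : ℝ) (hC : 0 ≤ C) (hC' : 0 ≤ C')
    (hf : ∀ x, ‖f x‖ ≤ C) (hf' : ∀ x, ‖f' x‖ ≤ C') (i n : ℕ) :
    ‖gam W j f f' n - cc W j f f' i n‖ ≤ 2 * (C * C') * (n * (2 / W.H (j + i))) := by
  have hms : MeasurableSet {x | W.P (j + i) (T^[n] x) ≠ (W.σ (j + i) ^ n) (W.P (j + i) x)} := by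
    have h1 : Measurable (fun x => W.P (j + i) (T^[n] x)) :=
      (W.meas (j + i)).comp (hT.measurable.iterate n)
    have h2 : Measurable (fun x => (W.σ (j + i) ^ n) (W.P (j + i) x)) :=
      Measurable.of_discrete.comp (W.meas (j + i))
    exact (measurableSet_eq_fun h1 h2).compl
  have hb : ∀ g : X → ℂ, Measurable g → (∀ x, ‖g x‖ ≤ C * C') → Integrable g μ := by
    intro g hg hb
    exact Integrable.of_bound hg.aestronglyMeasurable (C * C') (Eventually.of_forall hb)
  have m1 : Measurable (fun x => lift W j f i (W.P (j + i) (T^[n] x)) *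
      starRingEnd ℂ (lift W j f' i (W.P (j + i) x))) := by
    have a1 : Measurable (fun x => lift W j f i (W.P (j + i) (T^[n] x))) :=
      Measurable.of_discrete.comp ((W.meas (j + i)).comp (hT.measurable.iterate n))
    have a2 : Measurable (fun x => starRingEnd ℂ (lift W j f' i (W.P (j + i) x))) := by
      have : Measurable (fun v => starRingEnd ℂ (lift W j f' i v)) := Measurable.of_discrete
      exact this.comp (W.meas (j + i))
    exact a1.mul a2
  have m2 : Measurable (fun x => lift W j f i ((W.σ (j + i) ^ n) (W.P (j + i) x)) *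
      starRingEnd ℂ (lift W j f' i (W.P (j + i) x))) := by
    have : Measurable (fun v => lift W j f i ((W.σ (j + i) ^ n) v) *
      starRingEnd ℂ (lift W j f' i v)) := Measurable.of_discrete
    exact this.comp (W.meas (j + i))
  have b1 : ∀ x, ‖lift W j f i (W.P (j + i) (T^[n] x)) *
      starRingEnd ℂ (lift W j f' i (W.P (j + i) x))‖ ≤ C * C' := by
    intro x
    rw [norm_mul, RCLike.norm_conj]
    exact mul_le_mul (lift_bound W j f C hf i _) (lift_bound W j f' C' hf' i _) (norm_nonneg _) hC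
  have b2 : ∀ x, ‖lift W j f i ((W.σ (j + i) ^ n) (W.P (j + i) x)) *
      starRingEnd ℂ (lift W j f' i (W.P (j + i) x))‖ ≤ C * C' := by
    intro x
    rw [norm_mul, RCLike.norm_conj]
    exact mul_le_mul (lift_bound W j f C hf i _) (lift_bound W j f' C' hf' i _) (norm_nonneg _) hC
  have e1 : gam W j f f' n = ∫ x, lift W j f i (W.P (j + i) (T^[n] x)) *
      starRingEnd ℂ (lift W j f' i (W.P (j + i) x)) ∂μ := by
    unfold gam
    congr 1
    funext x
    rw [lift_P, lift_P]
  have e2 : cc W j f f' i n = ∫ x, lift W j f i ((W.σ (j + i) ^ n) (W.P (j + i) x)) *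
      starRingEnd ℂ (lift W j f' i (W.P (j + i) x)) ∂μ :=
    (int_P W (j + i) (W.meas _) (fun v => lift W j f i ((W.σ (j + i) ^ n) v) *
      starRingEnd ℂ (lift W j f' i v))).symm
  rw [e1, e2, ← integral_sub (hb _ m1 b1) (hb _ m2 b2)]
  have h3 : ‖∫ x, (lift W j f i (W.P (j + i) (T^[n] x)) *
      starRingEnd ℂ (lift W j f' i (W.P (j + i) x)) -
        lift W j f i ((W.σ (j + i) ^ n) (W.P (j + i) x)) *
      starRingEnd ℂ (lift W j f' i (W.P (j + i) x))) ∂μ‖ ≤
      ∫ x, ({x | W.P (j + i) (T^[n] x) ≠ (W.σ (j + i) ^ n) (W.P (j + i) x)}).indicator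
        (fun _ => 2 * (C * C')) x ∂μ := by
    apply norm_integral_le_of_norm_le
    · exact (integrable_const _).indicator hms
    · apply Eventually.of_forall
      intro x
      by_cases hx : W.P (j + i) (T^[n] x) ≠ (W.σ (j + i) ^ n) (W.P (j + i) x)
      · rw [indicator_of_mem (by exact hx)]
        refine le_trans (norm_sub_le _ _) ?_
        have := b1 x
        have := b2 x
        linarith
      · rw [indicator_of_notMem (by exact hx)]
        rw [ne_eq, not_not] at hx
        rw [hx, sub_self, norm_zero]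
  refine le_trans h3 ?_
  rw [integral_indicator_const _ hms, smul_eq_mul, mul_comm]
  exact mul_le_mul_of_nonneg_left (bad_le W hT (j + i) n) (by positivity)

theorem cc_tendsto (W : Tow μ T) (hT : MeasurePreserving T μ μ) [IsProbabilityMeasure μ]
    (j : ℕ) (f f' : Fin (W.K j) → ℂ) (C C' : ℝ) (hC : 0 ≤ C) (hC' : 0 ≤ C')
    (hf : ∀ x, ‖f x‖ ≤ C) (hf' : ∀ x, ‖f' x‖ ≤ C') (n : ℕ) :
    Tendsto (fun i => cc W j f f' i n) atTop (𝓝 (gam W j f f' n)) := by
  rw [tendsto_iff_norm_sub_tendsto_zero]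
  have h1 : Tendsto (fun i : ℕ => 2 * (C * C') * (n * (2 / (W.H (j + i) : ℝ)))) atTop (𝓝 0) := by
    have h2 : Tendsto (fun i : ℕ => (W.H (j + i) : ℝ)) atTop atTop := by
      apply tendsto_atTop_mono (f := fun i : ℕ => (i : ℝ))
      · intro i
        have := H_gt W (j + i)
        have h3 : i ≤ W.H (j + i) := by omega
        exact_mod_cast h3
      · exact tendsto_natCast_atTop_atTop
    have h3 : Tendsto (fun i : ℕ => 2 / (W.H (j + i) : ℝ)) atTop (𝓝 0) :=
      Tendsto.const_div_atTop h2 2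
    have h4 := (h3.const_mul (n : ℝ)).const_mul (2 * (C * C'))
    simpa using h4
  refine squeeze_zero (fun _ => norm_nonneg _) (fun i => ?_) h1
  rw [norm_sub_rev]
  exact gam_close W hT j f f' C C' hC hC' hf hf' i n

theorem gam_le (W : Tow μ T) (hT : MeasurePreserving T μ μ) [IsProbabilityMeasure μ]
    (j : ℕ) (f f' : Fin (W.K j) → ℂ) (C C' : ℝ) (hC : 0 ≤ C) (hC' : 0 ≤ C')
    (hf : ∀ x, ‖f x‖ ≤ C) (hf' : ∀ x, ‖f' x‖ ≤ C') (n : ℕ) (i0 : ℕ) (B : ℝ)
    (h : ∀ k, ‖cc W j f f' (i0 + k) n‖ ≤ B) : ‖gam W j f f' n‖ ≤ B := by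
  have h1 := (cc_tendsto W hT j f f' C C' hC hC' hf hf' n).norm
  refine le_of_tendsto h1 ?_
  rw [eventually_atTop]
  refine ⟨i0, fun b hb => ?_⟩
  obtain ⟨k, rfl⟩ := Nat.exists_eq_add_of_le hb
  exact h k

end

theorem main : S_Corr := by
  intro X _ μ _ T W
  have hT : MeasurePreserving (T.1 : X → X) μ μ := T.2
  constructor
  · intro j f f' hf hf'
    obtain ⟨C, hC, hfC⟩ : ∃ C : ℝ, 0 ≤ C ∧ ∀ x, ‖f x‖ ≤ C :=
      ⟨∑ y, ‖f y‖, Finset.sum_nonneg (fun _ _ => norm_nonneg _), fun x =>
        Finset.single_le_sum (f := fun y => ‖f y‖) (fun _ _ => norm_nonneg _) (Finset.mem_univ x)⟩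
    obtain ⟨C', hC', hfC'⟩ : ∃ C : ℝ, 0 ≤ C ∧ ∀ x, ‖f' x‖ ≤ C :=
      ⟨∑ y, ‖f' y‖, Finset.sum_nonneg (fun _ _ => norm_nonneg _), fun x =>
        Finset.single_le_sum (f := fun y => ‖f' y‖) (fun _ _ => norm_nonneg _) (Finset.mem_univ x)⟩
    have hS : 0 ≤ C * C' := by positivity
    have hgen : ∀ n, ‖gam W j f f' n‖ ≤ C * C' := fun n =>
      gam_le W hT j f f' C C' hC hC' hfC hfC' n 0 (C * C') (fun k =>
        cor_bound _ _ _ C C' hC hC' (lift_bound W j f C hfC _) (lift_bound W j f' C' hfC' _) n)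
    -- one block
    have hblock : ∀ i n, W.H (j + i) ≤ n → n < W.H (j + i + 1) →
        ‖gam W j f f' n‖ ≤ if n + W.H (j + i) ≤ W.H (j + i + 1) then 0 else
          C * C' * (W.H (j + i) / W.H (j + i + 1)) := by
      intro i n h1 h2
      have hH0 := H_pos W (j + i)
      have hH1 := H_pos W (j + i + 1)
      split_ifs with h3
      · apply gam_le W hT j f f' C C' hC hC' hfC hfC' n (i + 1)
        intro k
        refine le_trans (cc_anti W j f f' hf hf' n (i + 1) (by
          show n ≤ W.H (j + i + 1)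
          omega) k) ?_
        rw [cc_succ W j f f' hf hf' i n h3, norm_mul, fac_norm]
        have h4 : (if n ≤ W.H (j + i) then 1 - (n : ℝ) / W.H (j + i) else 0) = 0 := by
          split_ifs with h5
          · have h6 : n = W.H (j + i) := by omega
            rw [h6, div_self, sub_self]
            exact_mod_cast (by omega)
          · rfl
        rw [h4, zero_mul]
      · apply gam_le W hT j f f' C C' hC hC' hfC hfC' n (i + 2)
        intro k
        have h5 : n ≤ W.H (j + (i + 1)) := by
          show n ≤ W.H (j + i + 1)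
          omega
        have h6 : n ≤ W.H (j + (i + 2)) := by
          refine le_trans h5 (H_mono W (by omega))
        refine le_trans (cc_anti W j f f' hf hf' n (i + 2) h6 k) ?_
        have h7 := H_double W (j + (i + 1))
        rw [cc_succ W j f f' hf hf' (i + 1) n (by omega), norm_mul, fac_norm, if_pos h5]
        have h8 : ‖cc W j f f' (i + 1) n‖ ≤ C * C' :=
          cor_bound _ _ _ C C' hC hC' (lift_bound W j f C hfC _) (lift_bound W j f' C' hfC' _) n
        have h9 : (0 : ℝ) < W.H (j + i + 1) := by exact_mod_cast hH1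
        have h10 : 1 - (n : ℝ) / W.H (j + (i + 1)) ≤ W.H (j + i) / W.H (j + i + 1) := by
          show 1 - (n : ℝ) / W.H (j + i + 1) ≤ W.H (j + i) / W.H (j + i + 1)
          rw [sub_le_iff_le_add, ← add_div, le_div_iff₀ h9, one_mul]
          have : W.H (j + i + 1) ≤ W.H (j + i) + n := by omega
          exact_mod_cast this
        calc (1 - (n : ℝ) / W.H (j + (i + 1))) * ‖cc W j f f' (i + 1) n‖
            ≤ (W.H (j + i) / W.H (j + i + 1)) * (C * C') := by
              apply mul_le_mul h10 h8 (norm_nonneg _) (by positivity)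
          _ = C * C' * (W.H (j + i) / W.H (j + i + 1)) := by ring
    -- partial sums
    have hpart : ∀ i, ∑ n ∈ Finset.range (W.H (j + i)), ‖gam W j f f' n‖ ≤
        W.H j * (C * C') + C * C' * (1 - 1 / 2 ^ i) := by
      intro i
      induction i with
      | zero =>
        have : ∑ n ∈ Finset.range (W.H (j + 0)), ‖gam W j f f' n‖ ≤
            ∑ n ∈ Finset.range (W.H (j + 0)), C * C' := Finset.sum_le_sum (fun n _ => hgen n)
        rw [Finset.sum_const, Finset.card_range, nsmul_eq_mul] at this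
        simpa using this
      | succ i ih =>
        have hm : W.H (j + i) ≤ W.H (j + i + 1) := H_mono W (by omega)
        have hH0 := H_pos W (j + i)
        have hH1 := H_pos W (j + i + 1)
        have h9 : (0 : ℝ) < W.H (j + i + 1) := by exact_mod_cast hH1
        have e1 : ∑ n ∈ Finset.range (W.H (j + (i + 1))), ‖gam W j f f' n‖ =
            ∑ n ∈ Finset.range (W.H (j + i)), ‖gam W j f f' n‖ +
              ∑ n ∈ Finset.Ico (W.H (j + i)) (W.H (j + i + 1)), ‖gam W j f f' n‖ := by
          rw [Finset.sum_range_add_sum_Ico _ hm]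
          rfl
        have e2 : ∑ n ∈ Finset.Ico (W.H (j + i)) (W.H (j + i + 1)), ‖gam W j f f' n‖ ≤
            ∑ n ∈ Finset.Ico (W.H (j + i)) (W.H (j + i + 1)),
              (if n + W.H (j + i) ≤ W.H (j + i + 1) then 0 else
                C * C' * ((W.H (j + i) : ℝ) / W.H (j + i + 1))) := by
          apply Finset.sum_le_sum
          intro n hn
          rw [Finset.mem_Ico] at hn
          exact hblock i n hn.1 hn.2
        have e3 : ∑ n ∈ Finset.Ico (W.H (j + i)) (W.H (j + i + 1)),
              (if n + W.H (j + i) ≤ W.H (j + i + 1) then 0 else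
                C * C' * ((W.H (j + i) : ℝ) / W.H (j + i + 1))) ≤
            W.H (j + i) * (C * C' * ((W.H (j + i) : ℝ) / W.H (j + i + 1))) := by
          have e4 : ∀ n, (if n + W.H (j + i) ≤ W.H (j + i + 1) then (0 : ℝ) else
                C * C' * ((W.H (j + i) : ℝ) / W.H (j + i + 1))) =
              (if ¬ (n + W.H (j + i) ≤ W.H (j + i + 1)) then
                C * C' * ((W.H (j + i) : ℝ) / W.H (j + i + 1)) else 0) := by
            intro n
            split_ifs <;> rfl
          rw [Finset.sum_congr rfl (fun n _ => e4 n), ← Finset.sum_filter, Finset.sum_const,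
            nsmul_eq_mul]
          apply mul_le_mul_of_nonneg_right _ (by positivity)
          have e5 : (Finset.Ico (W.H (j + i)) (W.H (j + i + 1))).filter
              (fun n => ¬ (n + W.H (j + i) ≤ W.H (j + i + 1))) ⊆
              Finset.Ico (W.H (j + i + 1) - W.H (j + i)) (W.H (j + i + 1)) := by
            intro n hn
            simp only [Finset.mem_filter, Finset.mem_Ico] at hn ⊢
            omega
          have e6 := Finset.card_le_card e5
          rw [Nat.card_Ico] at e6
          have e7 : W.H (j + i + 1) - (W.H (j + i + 1) - W.H (j + i)) = W.H (j + i) := by omega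
          rw [e7] at e6
          exact_mod_cast e6
        have e8 : W.H (j + i) * (C * C' * ((W.H (j + i) : ℝ) / W.H (j + i + 1))) ≤
            C * C' * (1 / 2 ^ (i + 1)) := by
          have g1 := W.grow (j + i)
          have g2 : (2 : ℝ) ^ (j + i + 2) * (W.H (j + i) : ℝ) ^ 2 ≤ W.H (j + i + 1) := by
            exact_mod_cast g1
          have g3 : (W.H (j + i) : ℝ) ^ 2 / W.H (j + i + 1) ≤ 1 / 2 ^ (i + 1) := by
            rw [div_le_div_iff₀ h9 (by positivity), one_mul]
            refine le_trans ?_ g2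
            rw [mul_comm]
            apply mul_le_mul_of_nonneg_right _ (by positivity)
            exact pow_le_pow_right₀ (by norm_num) (by omega)
          calc W.H (j + i) * (C * C' * ((W.H (j + i) : ℝ) / W.H (j + i + 1)))
              = C * C' * ((W.H (j + i) : ℝ) ^ 2 / W.H (j + i + 1)) := by ring
            _ ≤ _ := mul_le_mul_of_nonneg_left g3 hS
        rw [e1]
        have e9 : C * C' * (1 - 1 / 2 ^ (i + 1)) = C * C' * (1 - 1 / 2 ^ i) +
            C * C' * (1 / 2 ^ (i + 1)) := by
          rw [pow_succ]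
          ring
        rw [e9]
        linarith
    apply summable_of_sum_range_le (c := W.H j * (C * C') + C * C')
    · intro n
      exact norm_nonneg _
    · intro n
      have h1 : Finset.range n ⊆ Finset.range (W.H (j + n)) := by
        intro k hk
        rw [Finset.mem_range] at hk ⊢
        have := H_gt W (j + n)
        omega
      refine le_trans (Finset.sum_le_sum_of_subset_of_nonneg h1 (fun _ _ _ => norm_nonneg _)) ?_
      refine le_trans (hpart n) ?_
      have : 0 ≤ C * C' * (1 / 2 ^ n) := by positivity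
      nlinarith
  · intro f hf n hn
    obtain ⟨C, hC, hfC⟩ : ∃ C : ℝ, 0 ≤ C ∧ ∀ x, ‖f x‖ ≤ C :=
      ⟨∑ y, ‖f y‖, Finset.sum_nonneg (fun _ _ => norm_nonneg _), fun x =>
        Finset.single_le_sum (f := fun y => ‖f y‖) (fun _ _ => norm_nonneg _) (Finset.mem_univ x)⟩
    have hz : ∀ i n, 0 < n → n < W.H (0 + i) → cc W 0 f f i n = 0 := by
      intro i
      induction i with
      | zero =>
        intro n h1 h2
        have h3 : W.H (0 + 0) = 1 := W.H0
        omega
      | succ i ih =>
        intro n h1 h2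
        have h2' : n < W.H (0 + i + 1) := h2
        have hd := H_double W (0 + i)
        have key : ∀ n, 0 < n → n + W.H (0 + i) ≤ W.H (0 + i + 1) → cc W 0 f f (i + 1) n = 0 := by
          intro n h1 h3
          rw [cc_succ W 0 f f hf hf i n h3]
          by_cases h4 : n < W.H (0 + i)
          · rw [ih n h1 h4, mul_zero]
          · have h5 : (if n ≤ W.H (0 + i) then 1 - (n : ℂ) / W.H (0 + i) else 0) = 0 := by
              split_ifs with h5
              · have h6 : n = W.H (0 + i) := by omega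
                have h7 := H_pos W (0 + i)
                rw [h6, div_self, sub_self]
                exact_mod_cast (by omega)
              · rfl
            rw [h5, zero_mul]
        by_cases h3 : n + W.H (0 + i) ≤ W.H (0 + i + 1)
        · exact key n h1 h3
        · have h4 : cc W 0 f f (i + 1) n =
              starRingEnd ℂ (cc W 0 f f (i + 1) (W.H (0 + i + 1) - n)) :=
            cor_conj (W.σ (0 + i + 1)) (lift W 0 f (i + 1)) (W.H (0 + i + 1)) n
              (W.nxt (0 + i)).per h2'.le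
          rw [h4, key _ (by omega) (by omega), map_zero]
    have h0 : ‖gam W 0 f f n‖ ≤ 0 := by
      apply gam_le W hT 0 f f C C hC hC hfC hfC n n
      intro k
      rw [hz (n + k) n hn, norm_zero]
      have := H_gt W (0 + (n + k))
      omega
    exact norm_le_zero_iff.1 h0

end Pool.Agent.W337.NG
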