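import Pool.Agent.W337.NG.Corr

/-!
Lebesgue spectrum of the limit automorphism.
-/

set_option autoImplicit false
set_option linter.unusedSectionVars false

namespace Pool.Agent.W337.NG.Le

open MeasureTheory Set Filter Topology
open scoped ENNReal symmDiff
open Pool.Agent.W744.NG Pool.Agent.W337.NG

section
variable {X : Type} [MeasurableSpace X] {μ : Measure X} [IsProbabilityMeasure μ] {T : X → X}

theorem ml (W : Tow μ T) (j : ℕ) (g : Fin (W.K j) → ℂ) : MemLp (fun x => g (W.P j x)) 2 μ := by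
  have hm : Measurable (fun x => g (W.P j x)) := Measurable.of_discrete.comp (W.meas j)
  refine MemLp.of_bound hm.aestronglyMeasurable (∑ y, ‖g y‖) (Eventually.of_forall fun x => ?_)
  exact Finset.single_le_sum (f := fun y => ‖g y‖) (fun _ _ => norm_nonneg _) (Finset.mem_univ _)

/-- the class of a function of level `j` -/
noncomputable def cl (W : Tow μ T) (j : ℕ) (g : Fin (W.K j) → ℂ) : Lp ℂ 2 μ := (ml W j g).toLp

theorem cl_ae (W : Tow μ T) (j : ℕ) (g : Fin (W.K j) → ℂ) :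
    cl W j g =ᵐ[μ] fun x => g (W.P j x) := (ml W j g).coeFn_toLp

theorem cl_add (W : Tow μ T) (j : ℕ) (g g' : Fin (W.K j) → ℂ) :
    cl W j (g + g') = cl W j g + cl W j g' := rfl

theorem cl_smul (W : Tow μ T) (j : ℕ) (c : ℂ) (g : Fin (W.K j) → ℂ) :
    cl W j (c • g) = c • cl W j g := rfl

theorem cl_lift (W : Tow μ T) (j : ℕ) (g : Fin (W.K j) → ℂ) (i : ℕ) :
    cl W (j + i) (lift W j g i) = cl W j g := by
  unfold cl
  congr 1
  funext x
  exact lift_P W j g i x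

theorem common (W : Tow μ T) (j j' : ℕ) (g : Fin (W.K j) → ℂ) (g' : Fin (W.K j') → ℂ) :
    ∃ (J : ℕ) (g1 g1' : Fin (W.K J) → ℂ), cl W J g1 = cl W j g ∧ cl W J g1' = cl W j' g' ∧
      (∑ v, g v = 0 → ∑ v, g1 v = 0) ∧ (∑ v, g' v = 0 → ∑ v, g1' v = 0) := by
  rcases le_total j j' with h | h
  · obtain ⟨i, rfl⟩ := Nat.exists_eq_add_of_le h
    exact ⟨j + i, lift W j g i, g', cl_lift W j g i, rfl, fun h => lift_sum W j g h i, fun h => h⟩
  · obtain ⟨i, rfl⟩ := Nat.exists_eq_add_of_le h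
    exact ⟨j' + i, g, lift W j' g' i, rfl, cl_lift W j' g' i, fun h => h,
      fun h => lift_sum W j' g' h i⟩

/-- all classes of functions of finite level -/
noncomputable def D1 (W : Tow μ T) : Submodule ℂ (Lp ℂ 2 μ) where
  carrier := {F | ∃ (j : ℕ) (g : Fin (W.K j) → ℂ), F = cl W j g}
  add_mem' := by
    rintro _ _ ⟨j, g, rfl⟩ ⟨j', g', rfl⟩
    obtain ⟨J, g1, g1', h1, h2, -, -⟩ := common W j j' g g'
    exact ⟨J, g1 + g1', by rw [cl_add, h1, h2]⟩
  zero_mem' := ⟨0, 0, by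
    have := cl_smul W 0 0 (0 : Fin (W.K 0) → ℂ)
    rw [zero_smul, zero_smul] at this
    exact this.symm⟩
  smul_mem' := by
    rintro c _ ⟨j, g, rfl⟩
    exact ⟨j, c • g, by rw [cl_smul]⟩

/-- classes of functions of finite level with integral zero -/
noncomputable def D0 (W : Tow μ T) : Submodule ℂ (Lp ℂ 2 μ) where
  carrier := {F | ∃ (j : ℕ) (g : Fin (W.K j) → ℂ), ∑ v, g v = 0 ∧ F = cl W j g}
  add_mem' := by
    rintro _ _ ⟨j, g, hg, rfl⟩ ⟨j', g', hg', rfl⟩
    obtain ⟨J, g1, g1', h1, h2, h3, h4⟩ := common W j j' g g'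
    refine ⟨J, g1 + g1', ?_, by rw [cl_add, h1, h2]⟩
    simp only [Pi.add_apply]
    rw [Finset.sum_add_distrib, h3 hg, h4 hg', add_zero]
  zero_mem' := ⟨0, 0, by simp, by
    have := cl_smul W 0 0 (0 : Fin (W.K 0) → ℂ)
    rw [zero_smul, zero_smul] at this
    exact this.symm⟩
  smul_mem' := by
    rintro c _ ⟨j, g, hg, rfl⟩
    refine ⟨j, c • g, ?_, by rw [cl_smul]⟩
    simp only [Pi.smul_apply, smul_eq_mul]
    rw [← Finset.mul_sum, hg, mul_zero]

theorem dense1 (W : Tow μ T) (F : Lp ℂ 2 μ) : F ∈ closure (D1 W : Set (Lp ℂ 2 μ)) := by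
  refine Lp.induction (by norm_num) (fun F => F ∈ closure (D1 W : Set (Lp ℂ 2 μ))) ?_ ?_
    isClosed_closure F
  · intro c s hs hμs
    rw [Metric.mem_closure_iff]
    intro ε hε
    have hc : 0 < ‖c‖ + 1 := by positivity
    obtain ⟨j, S, hS⟩ := W.gen s hs ((ε / (‖c‖ + 1)) ^ 2) (by positivity)
    classical
    have hms : MeasurableSet {x | W.P j x ∈ S} := (W.meas j) (MeasurableSet.of_discrete (s := S))
    refine ⟨cl W j (fun v => if v ∈ S then c else 0), ⟨j, _, rfl⟩, ?_⟩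
    have h1 : cl W j (fun v => if v ∈ S then c else 0) =
        indicatorConstLp 2 hms (measure_ne_top μ _) c := by
      apply Lp.ext
      refine (cl_ae W j _).trans ?_
      refine EventuallyEq.trans ?_ indicatorConstLp_coeFn.symm
      apply Eventually.of_forall
      intro x
      by_cases hx : W.P j x ∈ S
      · rw [indicator_of_mem (by exact hx)]
        simp [hx]
      · rw [indicator_of_notMem (by exact hx)]
        simp [hx]
    rw [h1, Lp.simpleFunc.coe_indicatorConst, dist_indicatorConstLp_eq_norm,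
      norm_indicatorConstLp (by norm_num) (by norm_num)]
    have h2 : (1 : ℝ) / (2 : ℝ≥0∞).toReal = 1 / 2 := by norm_num
    rw [h2, ← Real.sqrt_eq_rpow]
    have h3 : Real.sqrt (μ.real (s ∆ {x | W.P j x ∈ S})) ≤ ε / (‖c‖ + 1) := by
      rw [Real.sqrt_le_left (by positivity)]
      exact hS.le
    calc ‖c‖ * Real.sqrt (μ.real (s ∆ {x | W.P j x ∈ S})) ≤ ‖c‖ * (ε / (‖c‖ + 1)) :=
          mul_le_mul_of_nonneg_left h3 (norm_nonneg _)
      _ < ε := by
          rw [← mul_div_assoc, div_lt_iff₀ hc]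
          nlinarith
  · intro f g hf hg _ h1 h2
    have := (D1 W).topologicalClosure.add_mem (x := hf.toLp f) (y := hg.toLp g)
      (by exact h1) (by exact h2)
    exact this

theorem iter_ae (hT : MeasurePreserving T μ μ) (n : ℕ) (F : Lp ℂ 2 μ) :
    ((Lp.compMeasurePreservingₗᵢ ℂ T hT : Lp ℂ 2 μ → Lp ℂ 2 μ)^[n] F : X → ℂ) =ᵐ[μ]
      fun x => F (T^[n] x) := by
  induction n with
  | zero => exact EventuallyEq.rfl
  | succ n ih =>
    rw [Function.iterate_succ_apply']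
    have h1 := Lp.coeFn_compMeasurePreserving
      ((Lp.compMeasurePreservingₗᵢ ℂ T hT : Lp ℂ 2 μ → Lp ℂ 2 μ)^[n] F) hT
    refine EventuallyEq.trans h1 ?_
    have h2 := hT.quasiMeasurePreserving.ae_eq_comp ih
    refine h2.trans (Eventually.of_forall fun x => ?_)
    rfl

theorem inner_iter (hT : MeasurePreserving T μ μ) (n : ℕ) (F F' : Lp ℂ 2 μ) :
    inner ℂ F' ((Lp.compMeasurePreservingₗᵢ ℂ T hT : Lp ℂ 2 μ → Lp ℂ 2 μ)^[n] F) =
      ∫ x, F (T^[n] x) * starRingEnd ℂ (F' x) ∂μ := by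
  rw [L2.inner_def]
  apply integral_congr_ae
  filter_upwards [iter_ae hT n F] with x hx
  rw [RCLike.inner_apply, hx]

theorem ae_iter (hT : MeasurePreserving T μ μ) (n : ℕ) (f g : X → ℂ) (h : f =ᵐ[μ] g) :
    (fun x => f (T^[n] x)) =ᵐ[μ] fun x => g (T^[n] x) :=
  (hT.iterate n).quasiMeasurePreserving.ae_eq_comp h

theorem inner_cl (hT : MeasurePreserving T μ μ) (W : Tow μ T) (n j : ℕ)
    (g g' : Fin (W.K j) → ℂ) :
    inner ℂ (cl W j g') ((Lp.compMeasurePreservingₗᵢ ℂ T hT : Lp ℂ 2 μ → Lp ℂ 2 μ)^[n]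
      (cl W j g)) = ∫ x, g (W.P j (T^[n] x)) * starRingEnd ℂ (g' (W.P j x)) ∂μ := by
  rw [inner_iter]
  apply integral_congr_ae
  filter_upwards [ae_iter hT n _ _ (cl_ae W j g), cl_ae W j g'] with x h1 h2
  rw [h1, h2]

theorem int_cl (W : Tow μ T) (j : ℕ) (g : Fin (W.K j) → ℂ) :
    ∫ x, (cl W j g : X → ℂ) x ∂μ = (∑ v, g v) / (Fintype.card (Fin (W.K j)) : ℂ) := by
  rw [← int_P W j (W.meas j) g]
  exact integral_congr_ae (cl_ae W j g)

theorem K_ne (W : Tow μ T) (j : ℕ) : (Fintype.card (Fin (W.K j)) : ℂ) ≠ 0 := by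
  intro h
  rw [Nat.cast_eq_zero, Fintype.card_eq_zero_iff] at h
  have h1 : IsEmpty X := Function.isEmpty (W.P j)
  have h2 : μ univ = 1 := measure_univ
  rw [univ_eq_empty_iff.2 h1, measure_empty] at h2
  exact zero_ne_one h2

/-- the class of the constant function one -/
noncomputable def one1 (μ : Measure X) [IsProbabilityMeasure μ] : Lp ℂ 2 μ :=
  (memLp_const (1 : ℂ)).toLp

theorem dense0 (W : Tow μ T) (F : Lp ℂ 2 μ) (hF : ∫ x, (F : X → ℂ) x ∂μ = 0) :
    F ∈ closure (D0 W : Set (Lp ℂ 2 μ)) := by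
  have hin : ∀ G : Lp ℂ 2 μ, inner ℂ (one1 μ) G = ∫ x, (G : X → ℂ) x ∂μ := by
    intro G
    rw [L2.inner_def]
    apply integral_congr_ae
    filter_upwards [(memLp_const (1 : ℂ) (μ := μ) (p := 2)).coeFn_toLp] with x hx
    rw [RCLike.inner_apply]
    unfold one1
    rw [hx]
    simp
  have hcont : Continuous (fun G : Lp ℂ 2 μ => G - (inner ℂ (one1 μ) G : ℂ) • one1 μ) := by
    fun_prop
  have hF2 : F - (inner ℂ (one1 μ) F : ℂ) • one1 μ = F := by
    rw [hin, hF, zero_smul, sub_zero]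
  rw [← hF2]
  have h1 : F ∈ closure (D1 W : Set (Lp ℂ 2 μ)) := dense1 W F
  have h2 := image_closure_subset_closure_image hcont (mem_image_of_mem _ h1)
  refine closure_mono ?_ h2
  rintro _ ⟨_, ⟨j, g, rfl⟩, rfl⟩
  refine ⟨j, fun v => g v - (∑ v, g v) / (Fintype.card (Fin (W.K j)) : ℂ), ?_, ?_⟩
  · rw [Finset.sum_sub_distrib, Finset.sum_const, Finset.card_univ, nsmul_eq_mul,
      mul_div_cancel₀ _ (K_ne W j), sub_self]
  · simp only
    rw [hin, int_cl]
    apply Lp.ext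
    refine EventuallyEq.trans (Lp.coeFn_sub _ _) ?_
    filter_upwards [cl_ae W j g, cl_ae W j (fun v => g v - (∑ v, g v) /
      (Fintype.card (Fin (W.K j)) : ℂ)), Lp.coeFn_smul ((∑ v, g v) /
      (Fintype.card (Fin (W.K j)) : ℂ)) (one1 μ),
      (memLp_const (1 : ℂ) (μ := μ) (p := 2)).coeFn_toLp] with x h3 h4 h5 h6
    rw [h4, Pi.sub_apply, h3, h5, Pi.smul_apply]
    unfold one1
    rw [h6]
    simp

end

theorem four_int (n : ℕ) (hn : n ≠ 0) : ∫ θ : UnitAddCircle, fourier (n : ℤ) θ = 0 := by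
  have hn' : (n : ℤ) ≠ 0 := by exact_mod_cast hn
  have h1 : ∫ θ : UnitAddCircle, fourier (n : ℤ) θ =
      ∫ θ : UnitAddCircle, fourier (n : ℤ) (θ + (((1 : ℝ) / 2 / ((n : ℤ) : ℝ) : ℝ) : UnitAddCircle)) :=
    (integral_add_right_eq_self (fun θ : UnitAddCircle => fourier (n : ℤ) θ) _).symm
  have h2 : ∫ θ : UnitAddCircle, fourier (n : ℤ) (θ + (((1 : ℝ) / 2 / ((n : ℤ) : ℝ) : ℝ) :
      UnitAddCircle)) = - ∫ θ : UnitAddCircle, fourier (n : ℤ) θ := by
    rw [← integral_neg]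
    congr 1
    funext θ
    exact fourier_add_half_inv_index hn' one_pos θ
  rw [h2] at h1
  have h3 : (2 : ℂ) * ∫ θ : UnitAddCircle, fourier (n : ℤ) θ = 0 := by
    linear_combination h1
  rcases mul_eq_zero.1 h3 with h | h
  · norm_num at h
  · exact h

theorem main : S_AC → S_Corr → S_Leb := by
  intro hAC hCorr X _ μ _ T W
  have hT : MeasurePreserving (T.1 : X → X) μ μ := T.2
  obtain ⟨hc1, hc2⟩ := hCorr X μ T W
  constructor
  · intro f hf hf0
    have hF0 : ∫ x, (hf.toLp f : X → ℂ) x ∂μ = 0 := by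
      rw [integral_congr_ae hf.coeFn_toLp, hf0]
    obtain ⟨σ, h1, h2, h3⟩ := hAC (Lp ℂ 2 μ) (Lp.compMeasurePreservingₗᵢ ℂ (T.1 : X → X) hT) (D0 W)
      (by
        rintro _ ⟨j, g, hg, rfl⟩ _ ⟨j', g', hg', rfl⟩
        obtain ⟨J, g1, g1', e1, e2, e3, e4⟩ := common W j j' g g'
        rw [← e1, ← e2]
        have h4 := hc1 J g1 g1' (e3 hg) (e4 hg')
        refine h4.congr (fun n => ?_)
        rw [← inner_conj_symm, RCLike.norm_conj, inner_cl hT W n J g1 g1'])
      (hf.toLp f) (dense0 W _ hF0)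
    refine ⟨σ, ⟨h1, ?_⟩, h2⟩
    intro n
    rw [h3 n, inner_iter hT n]
    apply integral_congr_ae
    filter_upwards [ae_iter hT n _ _ hf.coeFn_toLp, hf.coeFn_toLp] with x h4 h5
    rw [h4, h5]
  · have hsum : ∀ k : ℕ, k = 2 → ∑ i : Fin k, (if (i : ℕ) = 0 then (1 : ℂ) else -1) = 0 := by
      rintro _ rfl
      simp [Fin.sum_univ_two]
    obtain ⟨a, ha⟩ : ∃ a : Fin (W.K 0) → ℂ,
        a = fun i : Fin (W.K 0) => if (i : ℕ) = 0 then (1 : ℂ) else -1 :=
      ⟨_, rfl⟩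
    have ha0 : ∑ i, a i = 0 := by rw [ha]; exact hsum _ W.K0
    have ha1 : ∀ i, a i * starRingEnd ℂ (a i) = 1 := by
      intro i
      rw [ha]
      simp only
      split_ifs <;> simp
    refine ⟨fun x => a (W.P 0 x), ml W 0 a, ?_, volume, ⟨inferInstance, ?_⟩, Measure.AbsolutelyContinuous.rfl⟩
    · rw [int_P W 0 (W.meas 0) a, ha0, zero_div]
    · intro n
      rcases Nat.eq_zero_or_pos n with h0 | h0
      · subst h0
        simp only [Function.iterate_zero, id_eq, ha1]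
        simp [measureReal_def]
      · rw [four_int n (by omega), hc2 a ha0 n h0]

end Pool.Agent.W337.NG.Le
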