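import Pool.Agent.W744.NG.Stubs

/-!
Relabelling of a finite stage.
-/

set_option autoImplicit false

namespace Pool.Agent.W337.NG.Re

open Pool.Agent.W744.NG

theorem pc_pow {V' V'' : Type} (φ : V' ≃ V'') (σ' : Equiv.Perm V') (n : ℕ) (x : V'') :
    ((φ.permCongr σ') ^ n) x = φ ((σ' ^ n) (φ.symm x)) := by
  induction n generalizing x with
  | zero => simp
  | succ n ih =>
    rw [pow_succ, Equiv.Perm.mul_apply, ih, pow_succ, Equiv.Perm.mul_apply, Equiv.permCongr_apply,
      Equiv.symm_apply_apply]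

theorem transport {V V' V'' : Type} [Fintype V] [Fintype V'] [Fintype V''] (φ : V' ≃ V'')
    (σ : Equiv.Perm V) (H : ℕ) (σ' : Equiv.Perm V') (H' r : ℕ) (ε : ℝ) (p : V' → V) (t : V' → ℕ)
    (Γ : V' → Fin r → ZMod 2) (q : Polynomial ℂ) (M : ℕ) (h : Nxt σ H σ' H' r ε p t Γ q M) :
    Nxt σ H (φ.permCongr σ') H' r ε (fun x => p (φ.symm x)) (fun x => t (φ.symm x))
      (fun x => Γ (φ.symm x)) q M where
  fib := by
    intro i
    rw [← Fintype.card_congr φ, ← h.fib i]
    congr 1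
    apply Nat.card_congr
    exact φ.symm.subtypeEquiv (fun x => Iff.rfl)
  per := by
    ext x
    rw [pc_pow, h.per]
    simp
  time := by
    have h1 : Nat.card {x : V'' // ¬ (t (φ.symm ((φ.permCongr σ') x)) = t (φ.symm x) + 1 ∧
        Γ (φ.symm ((φ.permCongr σ') x)) = Γ (φ.symm x) ∧
        p (φ.symm ((φ.permCongr σ') x)) = σ (p (φ.symm x)))} =
        Nat.card {x : V' // ¬ (t (σ' x) = t x + 1 ∧ Γ (σ' x) = Γ x ∧ p (σ' x) = σ (p x))} := by
      apply Nat.card_congr
      refine φ.symm.subtypeEquiv (fun x => ?_)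
      rw [Equiv.permCongr_apply, Equiv.symm_apply_apply]
    rw [h1, ← Fintype.card_congr φ]
    exact h.time
  corr := by
    intro f f' hf hf' n hn
    rw [← h.corr f f' hf hf' n hn]
    unfold cor
    rw [← Fintype.card_congr φ, ← Equiv.sum_comp φ]
    congr 1
    apply Finset.sum_congr rfl
    intro x _
    simp only [pc_pow, Equiv.symm_apply_apply]
  q1 := h.q1
  q2 := h.q2
  q3 := by
    intro F hF hF0
    rw [← Fintype.card_congr φ, ← Equiv.sum_comp φ]
    refine le_trans (le_of_eq ?_) (h.q3 F hF hF0)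
    apply Finset.sum_congr rfl
    intro x _
    apply Finset.sum_congr rfl
    intro v _
    simp only [pc_pow, Equiv.symm_apply_apply]
  q4 := h.q4

theorem main : S_NextA → S_Next := by
  intro hA m h σ hσ r N ε hr hε
  classical
  have e : (Fin m → ZMod 2) ≃ Fin (2 ^ m) := by
    apply Fintype.equivFinOfCardEq
    rw [Fintype.card_fun, ZMod.card, Fintype.card_fin]
  obtain ⟨V', _, m', h', σ', p, t, Γ, q, M, hcard, hmm, hN, hnxt⟩ :=
    hA m h (Fin (2 ^ m)) e σ hσ r N ε hr hε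
  have hfib : ∀ i, Nat.card {x : V' // p x = i} = 2 ^ (m' - m) := by
    intro i
    have h1 := hnxt.fib i
    rw [Fintype.card_fin, hcard] at h1
    have h2 : 2 ^ m' = 2 ^ (m' - m) * 2 ^ m := by rw [← pow_add]; congr 1; omega
    rw [h2] at h1
    exact Nat.eq_of_mul_eq_mul_right (by positivity) h1
  have efib : ∀ i, {x : V' // p x = i} ≃ Fin (2 ^ (m' - m)) := by
    intro i
    apply Fintype.equivFinOfCardEq
    rw [← Nat.card_eq_fintype_card]
    exact hfib i
  have hpow : 2 ^ m * 2 ^ (m' - m) = 2 ^ m' := by rw [← pow_add]; congr 1; omega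
  let φ : V' ≃ Fin (2 ^ m') :=
    ((Equiv.sigmaFiberEquiv p).symm.trans (Equiv.sigmaCongrRight efib)).trans
      ((Equiv.sigmaEquivProd _ _).trans (finProdFinEquiv.trans (finCongr hpow)))
  have hφ : ∀ x, (φ x : ℕ) / 2 ^ (m' - m) = (p x : ℕ) := by
    intro x
    have h1 : (φ x : ℕ) = ((efib (p x) ⟨x, rfl⟩ : Fin _) : ℕ) + 2 ^ (m' - m) * (p x : ℕ) := rfl
    rw [h1, Nat.add_mul_div_left _ _ (by positivity), Nat.div_eq_of_lt (Fin.is_lt _), zero_add]
  refine ⟨m', h', φ.permCongr σ', fun x => p (φ.symm x), fun x => t (φ.symm x),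
    fun x => Γ (φ.symm x), q, M, hmm, hN, ?_, transport φ σ _ σ' _ r ε p t Γ q M hnxt⟩
  intro x
  have h1 := hφ (φ.symm x)
  rw [Equiv.apply_symm_apply] at h1
  exact h1.symm

end Pool.Agent.W337.NG.Re
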