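import Pool.Agent.W337.NG.Corr

/-!
From the finite inequality for the gauged step functions to the space.
-/

set_option autoImplicit false

namespace Pool.Agent.W337.NG.Ga

open MeasureTheory Set Filter Topology
open scoped ENNReal
open Pool.Agent.W744.NG Pool.Agent.W337.NG

theorem eLp_le {Z : Type} [MeasurableSpace Z] {m : Measure Z} [IsProbabilityMeasure m] (g : Z → ℂ)
    (hg : Measurable g) (B : ℝ) (hB : ∀ z, ‖g z‖ ≤ B) (c : ℝ) (hc : 0 ≤ c)
    (h : ∫ z, ‖g z‖ ^ 2 ∂m ≤ c ^ 2) : eLpNorm g 2 m ≤ ENNReal.ofReal c := by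
  have hm : MemLp g 2 m := MemLp.of_bound hg.aestronglyMeasurable B (Eventually.of_forall hB)
  rw [hm.eLpNorm_eq_integral_rpow_norm (by norm_num) (by norm_num)]
  apply ENNReal.ofReal_le_ofReal
  have h1 : (2 : ℝ≥0∞).toReal = 2 := by norm_num
  rw [h1]
  have h2 : ∫ z, ‖g z‖ ^ (2 : ℝ) ∂m = ∫ z, ‖g z‖ ^ 2 ∂m := by
    congr 1
    funext z
    exact Real.rpow_two _
  rw [h2]
  calc (∫ z, ‖g z‖ ^ 2 ∂m) ^ (2 : ℝ)⁻¹ ≤ (c ^ 2) ^ (2 : ℝ)⁻¹ := by
        apply Real.rpow_le_rpow _ h (by norm_num)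
        exact integral_nonneg (fun z => by positivity)
    _ = c := by
        rw [← Real.rpow_two, ← Real.rpow_mul hc]
        norm_num

section
variable {X Y : Type} [MeasurableSpace X] [MeasurableSpace Y] {ν : Measure Y}

theorem meas_lab (D : YS ν) (r : ℕ) :
    Measurable (fun y => Fintype.equivFin (Fin r → ZMod 2) (D.v r y)) := by
  apply measurable_to_countable'
  intro w
  have h1 : (fun y => Fintype.equivFin (Fin r → ZMod 2) (D.v r y)) ⁻¹' {w} =
      {y | D.v r y = (Fintype.equivFin (Fin r → ZMod 2)).symm w} := by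
    ext y
    simp only [mem_preimage, mem_singleton_iff, mem_ofPred_eq]
    rw [Equiv.eq_symm_apply]
  rw [h1]
  exact D.meas r _

theorem meas_comb {β : Type} [MeasurableSpace β] (D : YS ν) (r K : ℕ)
    (g : Fin K → (Fin r → ZMod 2) → β)
    (Q : X → Fin K) (hQ : Measurable Q) : Measurable (fun z : X × Y => g (Q z.1) (D.v r z.2)) := by
  have h1 : Measurable (fun p : Fin K × Fin (Fintype.card (Fin r → ZMod 2)) =>
      g p.1 ((Fintype.equivFin (Fin r → ZMod 2)).symm p.2)) := Measurable.of_discrete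
  have h2 : Measurable (fun z : X × Y => (Q z.1, Fintype.equivFin (Fin r → ZMod 2) (D.v r z.2))) :=
    (hQ.comp measurable_fst).prodMk ((meas_lab D r).comp measurable_snd)
  have h3 := h1.comp h2
  have h4 : (fun z : X × Y => g (Q z.1) (D.v r z.2)) =
      (fun p : Fin K × Fin (Fintype.card (Fin r → ZMod 2)) =>
      g p.1 ((Fintype.equivFin (Fin r → ZMod 2)).symm p.2)) ∘
      (fun z : X × Y => (Q z.1, Fintype.equivFin (Fin r → ZMod 2) (D.v r z.2))) := by
    funext z
    simp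
  rw [h4]
  exact h3

theorem int_comb {μ : Measure X} [IsProbabilityMeasure μ] [IsProbabilityMeasure ν] (D : YS ν)
    (r K : ℕ) (g : Fin K → (Fin r → ZMod 2) → ℝ) (Q : X → Fin K) (hQ : Measurable Q)
    (hu : ∀ i, μ.real {x | Q x = i} = 1 / K) :
    ∫ z, g (Q z.1) (D.v r z.2) ∂(μ.prod ν) = (1 / K) * (1 / 2 ^ r) * ∑ x, ∑ v, g x v := by
  classical
  set c := Fintype.equivFin (Fin r → ZMod 2) with hc
  have h2 : Measurable (fun z : X × Y => (Q z.1, c (D.v r z.2))) :=
    (hQ.comp measurable_fst).prodMk ((meas_lab D r).comp measurable_snd)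
  have h1 : ∫ z, g (Q z.1) (D.v r z.2) ∂(μ.prod ν) =
      ∫ p, g p.1 (c.symm p.2) ∂((μ.prod ν).map (fun z : X × Y => (Q z.1, c (D.v r z.2)))) := by
    rw [integral_map h2.aemeasurable (Measurable.of_discrete.aestronglyMeasurable)]
    simp
  have hpm : IsProbabilityMeasure ((μ.prod ν).map (fun z : X × Y => (Q z.1, c (D.v r z.2)))) :=
    Measure.isProbabilityMeasure_map h2.aemeasurable
  rw [h1, integral_fintype .of_finite, Fintype.sum_prod_type, Finset.mul_sum]
  apply Finset.sum_congr rfl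
  intro x _
  rw [← Equiv.sum_comp c, Finset.mul_sum]
  apply Finset.sum_congr rfl
  intro v _
  rw [map_measureReal_apply h2 (measurableSet_singleton _)]
  have h3 : (fun z : X × Y => (Q z.1, c (D.v r z.2))) ⁻¹' {(x, c v)} =
      {a | Q a = x} ×ˢ {b | D.v r b = v} := by
    ext z
    simp [Prod.ext_iff]
  rw [h3, measureReal_prod_prod, hu, D.unif]
  simp only [Equiv.symm_apply_apply, smul_eq_mul]

end

theorem main : S_Gauge := by
  intro X Y _ _ μ ν _ _ T W D j F hF hF0
  classical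
  have hT : MeasurePreserving (T.1 : X → X) μ μ := T.2
  set q := W.q j with hq
  set M := W.M j with hM
  set P := W.P (j + 1) with hP
  set σ := W.σ (j + 1) with hσ
  set H := W.H (j + 1) with hH
  have hH1 : 1 ≤ H := H_pos W (j + 1)
  have hHr : (0 : ℝ) < H := by exact_mod_cast hH1
  have hPm : Measurable P := W.meas (j + 1)
  obtain ⟨G, hG⟩ : ∃ G : Fin (W.K (j + 1)) → (Fin (j + 1) → ZMod 2) → ℂ,
      G = fun x v => F (W.p j x) (v + W.Γ j x) := ⟨_, rfl⟩
  have hGb : ∀ x v, ‖G x v‖ ≤ 1 := by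
    intro x v
    rw [hG]
    exact hF _ _
  obtain ⟨e, he⟩ : ∃ e : ℝ, e = 1 / 2 ^ j := ⟨_, rfl⟩
  have he0 : 0 ≤ e := by rw [he]; positivity
  obtain ⟨Sq, hSq⟩ : ∃ Sq : ℝ, Sq = ∑ n ∈ q.support, ‖q.coeff n‖ := ⟨_, rfl⟩
  have hSq0 : 0 ≤ Sq := by rw [hSq]; exact Finset.sum_nonneg (fun _ _ => norm_nonneg _)
  obtain ⟨β, hβ⟩ : ∃ β : ℝ, β = 2 * Real.sqrt (2 * ((q.natDegree + M : ℝ) / H)) := ⟨_, rfl⟩
  have hβ0 : 0 ≤ β := by rw [hβ]; positivity
  -- iterates
  have hPT : ∀ n, Measurable (fun x => P ((T.1 : X → X)^[n] x)) :=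
    fun n => hPm.comp (hT.measurable.iterate n)
  have hPs : ∀ n, Measurable (fun x => (σ ^ n) (P x)) := fun n =>
    Measurable.of_discrete.comp hPm
  -- the three pieces
  obtain ⟨A, hA⟩ : ∃ A : X × Y → ℂ, A = fun z =>
      (∑ n ∈ q.support, q.coeff n * G ((σ ^ n) (P z.1)) (D.v (j + 1) z.2)) -
        G ((σ ^ M) (P z.1)) (D.v (j + 1) z.2) := ⟨_, rfl⟩
  obtain ⟨B, hB⟩ : ∃ B : ℕ → X × Y → ℂ, B = fun n z =>
      G (P ((T.1 : X → X)^[n] z.1)) (D.v (j + 1) z.2) -
        G ((σ ^ n) (P z.1)) (D.v (j + 1) z.2) := ⟨_, rfl⟩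
  have hBm : ∀ n, Measurable (B n) := by
    intro n
    rw [hB]
    exact (meas_comb D (j + 1) _ G _ (hPT n)).sub (meas_comb D (j + 1) _ G _ (hPs n))
  have hAm : Measurable A := by
    rw [hA]
    refine Measurable.sub (Finset.measurable_sum _ (fun n _ => ?_))
      (meas_comb D (j + 1) _ G _ (hPs M))
    exact (meas_comb D (j + 1) _ G _ (hPs n)).const_mul _
  have heq : (fun z : X × Y => (∑ n ∈ q.support, q.coeff n *
      F (W.P j ((T.1 : X → X)^[n] z.1)) (D.v (j + 1) z.2 + W.Γ j (W.P (j + 1) ((T.1 : X → X)^[n] z.1)))) -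
      F (W.P j ((T.1 : X → X)^[M] z.1)) (D.v (j + 1) z.2 + W.Γ j (W.P (j + 1) ((T.1 : X → X)^[M] z.1)))) =
      A + ((fun z => ∑ n ∈ q.support, (fun z => q.coeff n * B n z) z) - B M) := by
    funext z
    simp only [Pi.add_apply, Pi.sub_apply, hA, hB, hG]
    have h1 : ∀ n, W.P j ((T.1 : X → X)^[n] z.1) = W.p j (P ((T.1 : X → X)^[n] z.1)) := by
      intro n
      rw [hP, W.ref]
    simp only [h1]
    rw [← hP]
    have h2 : ∀ (a b : ℕ → ℂ), ∑ n ∈ q.support, q.coeff n * (a n - b n) =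
        ∑ n ∈ q.support, q.coeff n * a n - ∑ n ∈ q.support, q.coeff n * b n := by
      intro a b
      rw [← Finset.sum_sub_distrib]
      apply Finset.sum_congr rfl
      intro n _
      ring
    rw [h2]
    ring
  rw [heq]
  -- bound for A
  have hAn : eLpNorm A 2 (μ.prod ν) ≤ ENNReal.ofReal e := by
    refine eLp_le A hAm (Sq + 1) ?_ e he0 ?_
    · intro z
      rw [hA]
      refine le_trans (norm_sub_le _ _) (add_le_add ?_ (hGb _ _))
      refine le_trans (norm_sum_le _ _) ?_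
      rw [hSq]
      apply Finset.sum_le_sum
      intro n _
      rw [norm_mul]
      exact mul_le_of_le_one_right (norm_nonneg _) (hGb _ _)
    · have h3 := int_comb (μ := μ) D (j + 1) (W.K (j + 1))
        (fun x v => ‖(∑ n ∈ q.support, q.coeff n * G ((σ ^ n) x) v) - G ((σ ^ M) x) v‖ ^ 2)
        P hPm (W.unif (j + 1))
      rw [hA]
      refine le_trans (le_of_eq h3) ?_
      have h4 := (W.nxt j).q3 F hF hF0
      rw [Fintype.card_fin] at h4
      have h5 : ∑ x, ∑ v, ‖(∑ n ∈ q.support, q.coeff n * G ((σ ^ n) x) v) - G ((σ ^ M) x) v‖ ^ 2 ≤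
          e ^ 2 * (W.K (j + 1) * 2 ^ (j + 1)) := by
        rw [hG, he]
        exact h4
      by_cases hK : W.K (j + 1) = 0
      · have hK2 : (W.K (j + 1) : ℝ) = 0 := by exact_mod_cast hK
        rw [hK2, div_zero, zero_mul, zero_mul]
        positivity
      · have hK' : (0 : ℝ) < W.K (j + 1) := by exact_mod_cast Nat.pos_of_ne_zero hK
        calc 1 / (W.K (j + 1) : ℝ) * (1 / 2 ^ (j + 1)) * ∑ x, ∑ v,
              ‖(∑ n ∈ q.support, q.coeff n * G ((σ ^ n) x) v) - G ((σ ^ M) x) v‖ ^ 2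
            ≤ 1 / (W.K (j + 1) : ℝ) * (1 / 2 ^ (j + 1)) * (e ^ 2 * (W.K (j + 1) * 2 ^ (j + 1))) :=
              mul_le_mul_of_nonneg_left h5 (by positivity)
          _ = e ^ 2 := by field_simp
  -- bound for B
  have hBn : ∀ (a : ℂ) (n : ℕ), n ≤ q.natDegree + M →
      eLpNorm (fun z => a * B n z) 2 (μ.prod ν) ≤ ENNReal.ofReal (‖a‖ * β) := by
    intro a n hn
    have hb2 : ∀ z, ‖B n z‖ ≤ 2 := by
      intro z
      rw [hB]
      refine le_trans (norm_sub_le _ _) ?_
      have := hGb (P ((T.1 : X → X)^[n] z.1)) (D.v (j + 1) z.2)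
      have := hGb ((σ ^ n) (P z.1)) (D.v (j + 1) z.2)
      linarith
    refine eLp_le _ ((hBm n).const_mul a) (‖a‖ * 2) ?_ (‖a‖ * β) (by positivity) ?_
    · intro z
      rw [norm_mul]
      exact mul_le_mul_of_nonneg_left (hb2 z) (norm_nonneg _)
    · have hms : MeasurableSet {x | P ((T.1 : X → X)^[n] x) ≠ (σ ^ n) (P x)} :=
        (measurableSet_eq_fun (hPT n) (hPs n)).compl
      have hmz : MeasurableSet ({x | P ((T.1 : X → X)^[n] x) ≠ (σ ^ n) (P x)} ×ˢ (univ : Set Y)) :=
        hms.prod MeasurableSet.univ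
      have h5 : ∫ z, ‖a * B n z‖ ^ 2 ∂(μ.prod ν) ≤
          ∫ z, ({x | P ((T.1 : X → X)^[n] x) ≠ (σ ^ n) (P x)} ×ˢ (univ : Set Y)).indicator
            (fun _ => 4 * ‖a‖ ^ 2) z ∂(μ.prod ν) := by
        apply integral_mono_of_nonneg
        · exact Eventually.of_forall (fun z => by positivity)
        · exact (integrable_const _).indicator hmz
        · apply Eventually.of_forall
          intro z
          by_cases hz : P ((T.1 : X → X)^[n] z.1) ≠ (σ ^ n) (P z.1)
          · have hz' : z ∈ {x | P ((T.1 : X → X)^[n] x) ≠ (σ ^ n) (P x)} ×ˢ (univ : Set Y) :=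
              ⟨hz, mem_univ _⟩
            simp only [indicator_of_mem hz']
            rw [norm_mul, mul_pow]
            have h6 := hb2 z
            have h7 := norm_nonneg (B n z)
            have h8 : ‖B n z‖ ^ 2 ≤ 4 := by nlinarith
            nlinarith [sq_nonneg ‖a‖]
          · have hz' : z ∉ {x | P ((T.1 : X → X)^[n] x) ≠ (σ ^ n) (P x)} ×ˢ (univ : Set Y) :=
              fun h => hz h.1
            simp only [indicator_of_notMem hz']
            rw [ne_eq, not_not] at hz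
            rw [hB]
            simp only [hz, sub_self, mul_zero, norm_zero]
            norm_num
      refine le_trans h5 ?_
      rw [integral_indicator_const _ hmz, measureReal_prod_prod, smul_eq_mul]
      have h9 : ν.real (univ : Set Y) = 1 := by simp
      rw [h9, mul_one]
      have h10 := bad_le W hT (j + 1) n
      have h11 : μ.real {x | P ((T.1 : X → X)^[n] x) ≠ (σ ^ n) (P x)} ≤
          2 * ((q.natDegree + M : ℝ) / H) := by
        refine le_trans h10 ?_
        rw [← hH]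
        have h12 : (n : ℝ) ≤ (q.natDegree + M : ℝ) := by exact_mod_cast hn
        calc (n : ℝ) * (2 / H) ≤ (q.natDegree + M : ℝ) * (2 / H) :=
              mul_le_mul_of_nonneg_right h12 (by positivity)
          _ = 2 * ((q.natDegree + M : ℝ) / H) := by ring
      have h13 : β ^ 2 = 4 * (2 * ((q.natDegree + M : ℝ) / H)) := by
        rw [hβ, mul_pow, Real.sq_sqrt (by positivity)]
        ring
      rw [mul_pow, h13]
      have h14 : 0 ≤ ‖a‖ ^ 2 := by positivity
      nlinarith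
  -- assembly
  have hq2 := (W.nxt j).q2
  rw [← hq, ← hM, ← hH, ← hSq, ← he] at hq2
  have hfin : (Sq + 1) * β ≤ 3 * e := by
    have h1 : ((Sq + 1) * β) ^ 2 ≤ (3 * e) ^ 2 := by
      have h13 : β ^ 2 = 4 * (2 * ((q.natDegree + M : ℝ) / H)) := by
        rw [hβ, mul_pow, Real.sq_sqrt (by positivity)]
        ring
      rw [mul_pow, h13]
      have h2 : (1 + Sq) ^ 2 * ((q.natDegree + M : ℝ) / H) ≤ e ^ 2 := by
        rw [← mul_div_assoc, div_le_iff₀ hHr]
        exact_mod_cast hq2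
      nlinarith [sq_nonneg e]
    exact le_of_sq_le_sq h1 (by positivity)
  have hsum : eLpNorm (fun z => ∑ n ∈ q.support, (fun z => q.coeff n * B n z) z) 2 (μ.prod ν) ≤
      ENNReal.ofReal (Sq * β) := by
    have h1 : (fun z => ∑ n ∈ q.support, (fun z => q.coeff n * B n z) z) =
        ∑ n ∈ q.support, (fun z => q.coeff n * B n z) := by
      funext z
      rw [Finset.sum_apply]
    rw [h1]
    refine le_trans (eLpNorm_sum_le (fun n _ => ((hBm n).const_mul _).aestronglyMeasurable)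
      (by norm_num)) ?_
    rw [hSq, Finset.sum_mul, ENNReal.ofReal_sum_of_nonneg (fun n _ => by positivity)]
    apply Finset.sum_le_sum
    intro n hn
    apply hBn
    have := Polynomial.le_natDegree_of_mem_supp n hn
    omega
  have hBM : eLpNorm (B M) 2 (μ.prod ν) ≤ ENNReal.ofReal β := by
    have h1 := hBn 1 M (by omega)
    simpa using h1
  have hsm : Measurable (fun z => ∑ n ∈ q.support, (fun z => q.coeff n * B n z) z) :=
    Finset.measurable_sum _ (fun n _ => (hBm n).const_mul _)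
  calc eLpNorm (A + ((fun z => ∑ n ∈ q.support, (fun z => q.coeff n * B n z) z) - B M)) 2 (μ.prod ν)
      ≤ eLpNorm A 2 (μ.prod ν) +
        eLpNorm ((fun z => ∑ n ∈ q.support, (fun z => q.coeff n * B n z) z) - B M) 2 (μ.prod ν) :=
        eLpNorm_add_le hAm.aestronglyMeasurable (hsm.sub (hBm M)).aestronglyMeasurable (by norm_num)
    _ ≤ eLpNorm A 2 (μ.prod ν) +
        (eLpNorm (fun z => ∑ n ∈ q.support, (fun z => q.coeff n * B n z) z) 2 (μ.prod ν) +
          eLpNorm (B M) 2 (μ.prod ν)) := by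
        gcongr
        exact eLpNorm_sub_le hsm.aestronglyMeasurable (hBm M).aestronglyMeasurable (by norm_num)
    _ ≤ ENNReal.ofReal e + (ENNReal.ofReal (Sq * β) + ENNReal.ofReal β) := by
        gcongr
    _ = ENNReal.ofReal (e + (Sq * β + β)) := by
        rw [ENNReal.ofReal_add he0 (by positivity), ENNReal.ofReal_add (by positivity) hβ0]
    _ ≤ ENNReal.ofReal (4 / 2 ^ j) := by
        apply ENNReal.ofReal_le_ofReal
        have h1 : (4 : ℝ) / 2 ^ j = 4 * e := by rw [he]; ring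
        rw [h1]
        nlinarith

end Pool.Agent.W337.NG.Ga
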